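import Pool.Agent.H261EQ.Model

set_option autoImplicit false

/-!
# The algebra satisfies the relations
-/

namespace Pool.Agent.H261EQ

open Pool.Agent.Helper270.WPSource MvPolynomial

universe u

variable {Q : Type} [Fintype Q] (M : Sys Q Bool) (F : Type u) [Field F]

/-- The value of an element of the free algebra. -/
noncomputable def V (a : FreeAlgebra F (ML M)) : F := T M F (ev M F a 0 0)

theorem V_add (a b : FreeAlgebra F (ML M)) : V M F (a + b) = V M F a + V M F b := by
  simp [V, map_add]

/-- The syntactic congruence. -/
def con : RingCon (FreeAlgebra F (ML M)) where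
  r a b := ∀ u v, V M F (u * a * v) = V M F (u * b * v)
  iseqv := ⟨fun _ _ _ => rfl, fun h u v => (h u v).symm, fun h h' u v => (h u v).trans (h' u v)⟩
  mul' := by
    intro a b c d h h' u v
    have h1 := h u (c * v)
    have h2 := h' (u * b) v
    simp only [← mul_assoc] at h1 h2 ⊢
    rw [h1, h2]
  add' := by
    intro a b c d h h' u v
    simp only [mul_add, add_mul, V_add, h u v, h' u v]

/-- The algebra of the machine. -/
abbrev Qt : Type u := (con M F).Quotient

/-- The projection. -/
noncomputable abbrev pr : FreeAlgebra F (ML M) →+* Qt M F := (con M F).mk'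

variable {M F}

theorem pr_eq {a b : FreeAlgebra F (ML M)} :
    pr M F a = pr M F b ↔ ∀ u v, V M F (u * a * v) = V M F (u * b * v) :=
  RingCon.eq _

theorem pr_smul (c : F) (a : FreeAlgebra F (ML M)) : pr M F (c • a) = c • pr M F a := rfl

variable (M F) in
/-- The generators. -/
noncomputable def gen (a : ML M) : Qt M F := pr M F (FreeAlgebra.ι F a)

theorem prod_gen (l : List (ML M)) :
    (l.map (gen M F)).prod = pr M F (l.map (FreeAlgebra.ι F)).prod := by
  rw [map_list_prod, List.map_map]
  rfl

theorem V_mid {u v w : FreeAlgebra F (ML M)} {i j : Fin 3} {e : ML M →₀ ℕ}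
    (h : ev M F w = Matrix.single i j (monomial e 1)) :
    V M F (u * w * v) = T M F (ev M F u 0 i * ev M F v j 0 * monomial e 1) := by
  unfold V
  rw [map_mul, map_mul, h, mul_single_mul]

theorem sat_some {l₁ l₂ : List (ML M)}
    (h : ∀ u v, V M F (u * (l₁.map (FreeAlgebra.ι F)).prod * v) =
      V M F (u * (l₂.map (FreeAlgebra.ι F)).prod * v)) :
    Sat M (gen M F) (l₁, some l₂) := by
  change (l₁.map (gen M F)).prod = (l₂.map (gen M F)).prod
  rw [prod_gen, prod_gen, pr_eq]
  exact h

theorem sat_none {l₁ : List (ML M)}
    (h : ∀ u v, V M F (u * (l₁.map (FreeAlgebra.ι F)).prod * v) = 0) :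
    Sat M (gen M F) (l₁, none) := by
  change (l₁.map (gen M F)).prod = 0
  rw [prod_gen, ← map_zero (pr M F), pr_eq]
  intro u v
  rw [h u v]
  simp [V]

/-! ### Values of the words of the relations -/

theorem val_congr {a b : St Q M.B} {m m' : ML M →₀ ℕ} (hL : m .L = m' .L) (hR : m .R = m' .R)
    (ht : ∀ c, m (.t c) = m' (.t c))
    (hv : m .L = 1 → m .R = 1 → vl M F a (fun j => m (.x j)) (fun j => m (.y j)) =
      vl M F b (fun j => m' (.x j)) (fun j => m' (.y j))) :
    tval M F (m + Finsupp.single (.t a) 1) = tval M F (m' + Finsupp.single (.t b) 1) := by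
  classical
  rw [tval_t, tval_t, hL, hR]
  simp only [ht]
  by_cases h : m' .L = 1 ∧ m' .R = 1 ∧ ∀ b, m' (.t b) = 0
  · rw [if_pos h, if_pos h]
    exact hv (hL.trans h.1) (hR.trans h.2.1)
  · rw [if_neg h, if_neg h]

theorem sat_gen (i : RI M) : Sat M (gen M F) (rel M i) := by
  classical
  rcases i with (_ | _) | ⟨q, j⟩ | ⟨q, r⟩ | ⟨q, r, j⟩ | ⟨q, r⟩
  · -- `y` commute
    apply sat_some
    intro u v
    rw [V_mid (i := 2) (j := 2)
      (e := Finsupp.single (.y true) 1 + Finsupp.single (.y false) 1), V_mid (i := 2) (j := 2)
      (e := Finsupp.single (.y false) 1 + Finsupp.single (.y true) 1)]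
    · rw [add_comm (Finsupp.single (Lt.y true) 1)]
    · rw [ev_word]
      simp [G, monomial_mul]
    · rw [ev_word]
      simp [G, monomial_mul]
  · -- `x` commute
    apply sat_some
    intro u v
    rw [V_mid (i := 1) (j := 1)
      (e := Finsupp.single (.x true) 1 + Finsupp.single (.x false) 1), V_mid (i := 1) (j := 1)
      (e := Finsupp.single (.x false) 1 + Finsupp.single (.x true) 1)]
    · rw [add_comm (Finsupp.single (Lt.x true) 1)]
    · rw [ev_word]
      simp [G, monomial_mul]
    · rw [ev_word]
      simp [G, monomial_mul]
  · -- `x ^ B p = p y`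
    apply sat_some
    intro u v
    rw [V_mid (i := 1) (j := 2)
      (e := Finsupp.single (.x j) M.B + Finsupp.single (P M q) 1), V_mid (i := 1) (j := 2)
      (e := Finsupp.single (P M q) 1 + Finsupp.single (.y j) 1)]
    · apply T_mul_congr
      intro m _
      rw [← add_assoc, add_comm (Finsupp.single (P M q) 1), ← add_assoc]
      apply val_congr
      · simp
      · simp
      · simp
      · intro _ _
        simp only [vl, Finsupp.add_apply]
        congr 1
        funext k
        by_cases hk : j = k
        · subst hk
          simp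
          ring
        · have h1 : (Lt.x j : ML M) ≠ Lt.x k := by simpa using hk
          have h2 : (Lt.y j : ML M) ≠ Lt.y k := by simpa using hk
          rw [Finsupp.single_eq_of_ne' h1, Finsupp.single_eq_of_ne' h2]
          simp
    · rw [ev_word]
      simp [G, monomial_mul]
    · rw [ev_word, List.map_append, List.prod_append]
      simp only [List.map_cons, List.map_nil, List.prod_cons, List.prod_nil, mul_one]
      exact replicate_word j M.B _
  · -- `L x ^ r p = L s`
    apply sat_some
    intro u v
    rw [V_mid (i := 0) (j := 2)
      (e := Finsupp.single .L 1 + (ex (fun j => (r j : ℕ)) + Finsupp.single (P M q) 1)),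
      V_mid (i := 0) (j := 2)
      (e := Finsupp.single .L 1 + Finsupp.single (SS M q r) 1)]
    · apply T_mul_congr
      intro m hm
      rw [← add_assoc, ← add_assoc, ← add_assoc]
      obtain ⟨m₁, h₁, m₂, h₂, rfl⟩ := mem_support_mul hm
      apply val_congr
      · simp [ex]
      · simp [ex]
      · simp [ex]
      · intro hL _
        have hL' : m₁ .L = 0 ∧ m₂ .L = 0 := by
          simp only [ex, Finsupp.add_apply, Finsupp.single_eq_same] at hL
          constructor <;> omega
        have hx1 := ((Pr.ev u).1 0 0 m₁ (by decide) h₁ hL'.1).1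
        have hx2 := ((Pr.ev v).1 2 0 m₂ (by decide) h₂ hL'.2).1
        have ex_x : ∀ j, ex (M := M) (fun j => (r j : ℕ)) (.x j) = r j := by
          intro j
          cases j <;> simp [ex]
        have ex_y : ∀ j, ex (M := M) (fun j => (r j : ℕ)) (.y j) = 0 := by
          intro j
          simp [ex]
        simp only [vl, Finsupp.add_apply, hx1, hx2, ex_x, ex_y]
        rw [H_step]
        have hlt : ∀ j, (r j : ℕ) < M.B := fun j => (r j).2
        have hB := M.hB
        have hres : M.res (fun j => 0 + 0 + (Finsupp.single (Lt.L : ML M) 1) (Lt.x j) +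
            (r j : ℕ) + M.B * (m₁ (Lt.y j) + m₂ (Lt.y j) +
            (Finsupp.single (Lt.L : ML M) 1) (Lt.y j) + 0)) = r := by
          funext j
          apply Fin.ext
          simp only [Sys.res]
          rw [Finsupp.single_eq_of_ne (by simp), Finsupp.single_eq_of_ne (by simp)]
          simp only [zero_add, add_zero]
          rw [Nat.add_mul_mod_self_left, Nat.mod_eq_of_lt (hlt j)]
        rw [hres]
        congr 1
        funext j
        simp only [Sys.nn, hres]
        rw [Finsupp.single_eq_of_ne (by simp), Finsupp.single_eq_of_ne (by simp)]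
        simp only [zero_add, add_zero]
        rw [Nat.add_mul_div_left _ _ hB, Nat.div_eq_of_lt (hlt j), zero_add]
    · rw [ev_word]
      simp [G, monomial_mul]
    · rw [ev_word, List.map_cons, List.map_append, List.prod_cons, List.prod_append]
      simp only [List.map_cons, List.map_nil, List.prod_cons, List.prod_nil, mul_one]
      have := pw_word (M := M) (F := F) (fun j => (r j : ℕ)) (Finsupp.single (P M q) 1)
      have h2 : G M F (P M q) = Matrix.single 1 2 (monomial (Finsupp.single (P M q) 1) 1) := rfl
      rw [h2, this]
      simp [G, monomial_mul]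
  · -- `s y = x ^ a s`
    apply sat_some
    intro u v
    rw [V_mid (i := 1) (j := 2)
      (e := Finsupp.single (SS M q r) 1 + Finsupp.single (.y j) 1), V_mid (i := 1) (j := 2)
      (e := Finsupp.single (.x j) (M.a q r j) + Finsupp.single (SS M q r) 1)]
    · apply T_mul_congr
      intro m _
      rw [← add_assoc m (Finsupp.single (Lt.x j) _), add_comm (Finsupp.single (SS M q r) 1),
        ← add_assoc]
      apply val_congr
      · simp
      · simp
      · simp
      · intro _ _
        simp only [vl, Finsupp.add_apply]
        congr 1
        funext k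
        by_cases hk : j = k
        · subst hk
          simp
          ring
        · have h1 : (Lt.x j : ML M) ≠ Lt.x k := by simpa using hk
          have h2 : (Lt.y j : ML M) ≠ Lt.y k := by simpa using hk
          rw [Finsupp.single_eq_of_ne' h1, Finsupp.single_eq_of_ne' h2]
          simp
    · rw [ev_word, List.map_append, List.prod_append]
      simp only [List.map_cons, List.map_nil, List.prod_cons, List.prod_nil, mul_one]
      exact replicate_word j _ _
    · rw [ev_word]
      simp [G, monomial_mul]
  · -- `s R = x ^ b p R`
    have hw : ev M F (([SS M q r, Lt.R] : List (ML M)).map (FreeAlgebra.ι F)).prod =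
        Matrix.single 1 0 (monomial (Finsupp.single (.R) 1 + Finsupp.single (SS M q r) 1) 1) := by
      rw [ev_word]
      simp [G, monomial_mul, add_comm]
    have hpre : ∀ u v m, m ∈ (ev M F u 0 1 * ev M F v 0 0).support → m .R = 0 →
        ∀ b, m (.y b) = 0 := by
      intro u v m hm hR b
      obtain ⟨m₁, h₁, m₂, h₂, rfl⟩ := mem_support_mul hm
      simp only [Finsupp.add_apply, Nat.add_eq_zero_iff] at hR ⊢
      exact ⟨((Pr.ev u).2 0 1 m₁ (by decide) h₁ hR.1).1 b,
        ((Pr.ev v).2 0 0 m₂ (by decide) h₂ hR.2).1 b⟩
    cases hq : M.nxt q r with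
    | none =>
      have e : rel M (.inr (.inr (.inr (.inr (q, r))))) = ([SS M q r, Lt.R], none) := by
        simp [rel, hq]
      rw [e]
      apply sat_none
      intro u v
      rw [V_mid hw]
      apply T_mul_zero
      intro m _
      rw [← add_assoc, tval_t]
      split_ifs
      · simp [vl, hq, H_none]
      · rfl
    | some q' =>
      have e : rel M (.inr (.inr (.inr (.inr (q, r))))) =
          ([SS M q r, Lt.R], some (pw (M.b q r) ++ [P M q', Lt.R])) := by
        simp [rel, hq]
      rw [e]
      apply sat_some
      intro u v
      rw [V_mid hw, V_mid (i := 1) (j := 0)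
        (e := Finsupp.single .R 1 + (ex (M.b q r) + Finsupp.single (P M q') 1))]
      · apply T_mul_congr
        intro m hm
        rw [← add_assoc, ← add_assoc, ← add_assoc]
        apply val_congr
        · simp [ex]
        · simp [ex]
        · simp [ex]
        · intro _ hR
          have hR' : m .R = 0 := by
            simp only [Finsupp.add_apply, Finsupp.single_eq_same] at hR
            omega
          have hy := hpre u v m hm hR'
          have ex_x : ∀ j, ex (M := M) (M.b q r) (.x j) = M.b q r j := by
            intro j
            cases j <;> simp [ex]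
          have ex_y : ∀ j, ex (M := M) (M.b q r) (.y j) = 0 := by
            intro j
            simp [ex]
          simp only [vl, Finsupp.add_apply, hy, ex_x, ex_y, hq]
          congr 1
          funext j
          rw [Finsupp.single_eq_of_ne (by simp), Finsupp.single_eq_of_ne (by simp)]
          simp
      · rw [ev_word, List.map_append, List.prod_append]
        simp only [List.map_cons, List.map_nil, List.prod_cons, List.prod_nil, mul_one]
        have h2 : G M F (P M q') =
          Matrix.single 1 2 (monomial (Finsupp.single (P M q') 1) 1) := rfl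
        rw [h2, ← mul_assoc, pw_word]
        simp [G, monomial_mul, add_comm, add_left_comm]

/-- The configuration word is not zero if the machine does not stop. -/
theorem cfg_ne_zero {q : Q} {n : Bool → ℕ} (h : ¬ M.Halts (some q) n) :
    ((cfg M q n).map (gen M F)).prod ≠ 0 := by
  classical
  intro h0
  rw [prod_gen, ← map_zero (pr M F), pr_eq] at h0
  have h1 := h0 1 1
  simp only [mul_one, one_mul] at h1
  have h2 : ev M F ((cfg M q n).map (FreeAlgebra.ι F)).prod =
      Matrix.single 0 0 (monomial (Finsupp.single .L 1 + (ex n + Finsupp.single .R 1) +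
        Finsupp.single (P M q) 1) 1) := by
    rw [ev_word]
    unfold cfg
    rw [List.map_cons, List.map_append, List.prod_cons, List.prod_append]
    simp only [List.map_cons, List.map_nil, List.prod_cons, List.prod_nil, mul_one]
    have h2 : G M F (P M q) =
      Matrix.single 1 2 (monomial (Finsupp.single (P M q) 1) 1) := rfl
    rw [h2, ← mul_assoc (List.prod _), pw_word]
    simp only [G, Matrix.single_mul_single_same, monomial_mul, mul_one]
    congr 2
    abel_nf
  have h3 : V M F ((cfg M q n).map (FreeAlgebra.ι F)).prod = 1 := by
    unfold V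
    rw [h2, Matrix.single_apply_same, T_one, tval_t]
    have ex_x : ∀ j, ex (M := M) n (.x j) = n j := by
      intro j
      cases j <;> simp [ex]
    have ex_y : ∀ j, ex (M := M) n (.y j) = 0 := by
      intro j
      simp [ex]
    rw [if_pos]
    · simp only [vl, Finsupp.add_apply, ex_x, ex_y]
      have e : (fun j => (Finsupp.single (Lt.L : ML M) 1) (Lt.x j) + (n j +
          (Finsupp.single (Lt.R : ML M) 1) (Lt.x j)) +
          M.B * ((Finsupp.single (Lt.L : ML M) 1) (Lt.y j) + (0 +
          (Finsupp.single (Lt.R : ML M) 1) (Lt.y j)))) = n := by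
        funext j
        simp
      rw [e]
      unfold H
      rw [if_neg h]
    · simp [ex]
  rw [h3] at h1
  simp [V] at h1

/-- The identities of `M_3(F)` hold. -/
theorem qt_identity [Infinite F] (p : List (F × ℕ × List ℕ))
    (hp : ∀ v : ℕ → Matrix (Fin 3) (Fin 3) F, eval v p = 0) (v : ℕ → Qt M F) :
    eval v p = 0 := by
  have hs : ∀ i, ∃ a, pr M F a = v i := fun i => RingCon.mk'_surjective _ (v i)
  choose w hw using hs
  have h1 : pr M F (eval w p) = eval (fun i => pr M F (w i)) p :=
    map_eval (fun a => pr M F a) (map_zero _) (map_add _) (map_mul _) (fun c a => pr_smul c a) w p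
  have h2 : ev M F (eval w p) = 0 := by
    have := map_eval (F := F) (fun a => ev M F a) (map_zero _) (map_add _) (map_mul _)
      (map_smul _) w p
    rw [this]
    exact eval_matrix p hp _
  have h3 : pr M F (eval w p) = 0 := by
    rw [← map_zero (pr M F), pr_eq]
    intro u v
    unfold V
    rw [map_mul, map_mul, h2, map_mul, map_mul, map_zero]
  have h4 : (fun i => pr M F (w i)) = v := funext hw
  rw [h4] at h1
  rw [← h1, h3]

end Pool.Agent.H261EQ
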