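import Mathlib

set_option autoImplicit false

/-!
# The equality problem in varieties of associative algebras: definitions
-/

namespace Pool.Agent.H261EQ

universe u

/-- The product of a nonempty list of elements (`0` for the empty list). -/
def prodList {A : Type*} [NonUnitalRing A] : List A → A
  | [] => 0
  | a :: l => l.foldl (· * ·) a

/-- The value of a noncommutative polynomial without constant term. The polynomial is a list of
terms `(c, i, l)`, and the term `(c, i, [j₁, …, j_k])` is `c x_i x_{j₁} ⋯ x_{j_k}`. -/
def eval {F A : Type*} [Field F] [NonUnitalRing A] [Module F A] (v : ℕ → A)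
    (p : List (F × ℕ × List ℕ)) : A :=
  (p.map fun t => t.1 • prodList ((t.2.1 :: t.2.2).map v)).sum

/-- Polynomials without constant term with rational coefficients, as finite objects: the
coefficient `(z, d)` is the rational number `z / (d + 1)`. -/
abbrev RPoly : Type := List ((ℤ × ℕ) × ℕ × List ℕ)

/-- The polynomial over the field. -/
def RPoly.toPoly (F : Type*) [Field F] (p : RPoly) : List (F × ℕ × List ℕ) :=
  p.map fun t => ((t.1.1 : F) / ((t.1.2 : F) + 1), t.2)

/-- The quasi-identity `u₁ = 0 ∧ ⋯ ∧ u_k = 0 → u = 0` is the pair `([u₁, …, u_k], u)`. -/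
abbrev QI : Type := List RPoly × RPoly

/-- An associative algebra over `F`, not assumed to have a unit. -/
structure AssocAlg (F : Type u) [Field F] where
  carrier : Type u
  [ring : NonUnitalRing carrier]
  [module : Module F carrier]
  [tower : IsScalarTower F carrier carrier]
  [comm : SMulCommClass F carrier carrier]

attribute [instance] AssocAlg.ring AssocAlg.module AssocAlg.tower AssocAlg.comm

/-- The quasi-identity holds in the algebra. -/
def QI.Holds {F : Type u} [Field F] (q : QI) (A : AssocAlg F) : Prop :=
  ∀ v : ℕ → A.carrier, (∀ p ∈ q.1, eval v (p.toPoly F) = 0) → eval v (q.2.toPoly F) = 0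

/-- The variety `M(n)`: all algebras satisfying every polynomial identity of `M_n(F)`. -/
def varM (F : Type u) [Field F] (n : ℕ) : Set (AssocAlg F) :=
  {A | ∀ p : List (F × ℕ × List ℕ),
    (∀ v : ℕ → Matrix (Fin n) (Fin n) F, eval v p = 0) → ∀ v : ℕ → A.carrier, eval v p = 0}

/-- The variety `S(n)` defined by the standard identity of degree `n`. -/
def varS (F : Type u) [Field F] (n : ℕ) : Set (AssocAlg F) :=
  {A | ∀ x : Fin n → A.carrier,
    ∑ σ : Equiv.Perm (Fin n), (Equiv.Perm.sign σ : ℤ) •
      prodList (List.ofFn fun i => x (σ i)) = 0}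

/-- The equality problem for the class of algebras is decidable. -/
def EqualityDecidable {F : Type u} [Field F] (K : Set (AssocAlg F)) : Prop :=
  ComputablePred fun q : QI => ∀ A ∈ K, q.Holds A

/-! ### Basic facts -/

section Basic

variable {A B : Type*} [NonUnitalRing A] [NonUnitalRing B]

theorem map_foldl (φ : A → B) (hmul : ∀ a b, φ (a * b) = φ a * φ b) (l : List A) (a : A) :
    φ (l.foldl (· * ·) a) = (l.map φ).foldl (· * ·) (φ a) := by
  induction l generalizing a with
  | nil => rfl
  | cons b l ih => simp only [List.foldl_cons, List.map_cons, ih, hmul]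

theorem map_prodList (φ : A → B) (h0 : φ 0 = 0) (hmul : ∀ a b, φ (a * b) = φ a * φ b)
    (l : List A) : φ (prodList l) = prodList (l.map φ) := by
  cases l with
  | nil => exact h0
  | cons a l => exact map_foldl φ hmul l a

theorem prodList_eq_prod {R : Type*} [Ring R] (l : List R) (h : l ≠ []) :
    prodList l = l.prod := by
  cases l with
  | nil => exact absurd rfl h
  | cons a l =>
    have : ∀ (l : List R) (a : R), l.foldl (· * ·) a = a * l.prod := by
      intro l
      induction l with
      | nil => intro a; simp
      | cons b l ih => intro a; simp [ih, mul_assoc]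
    simp [prodList, this]

theorem map_eval {F : Type*} [Field F] [Module F A] [Module F B] (φ : A → B) (h0 : φ 0 = 0)
    (hadd : ∀ a b, φ (a + b) = φ a + φ b) (hmul : ∀ a b, φ (a * b) = φ a * φ b)
    (hsmul : ∀ (c : F) a, φ (c • a) = c • φ a) (v : ℕ → A) (p : List (F × ℕ × List ℕ)) :
    φ (eval v p) = eval (fun i => φ (v i)) p := by
  unfold eval
  induction p with
  | nil => simpa using h0
  | cons t p ih =>
    simp only [List.map_cons, List.sum_cons, hadd, ih, hsmul]
    congr 2
    have := map_prodList φ h0 hmul ((t.2.1 :: t.2.2).map v)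
    simp only [List.map_cons, List.map_map] at this
    rw [this]
    rfl

end Basic

/-- Identities of `M_n(F)` hold in `M_n(C)` for commutative algebras `C`. -/
theorem eval_matrix {F : Type*} [Field F] [Infinite F] {n : ℕ} (p : List (F × ℕ × List ℕ))
    (hp : ∀ v : ℕ → Matrix (Fin n) (Fin n) F, eval v p = 0)
    {C : Type*} [CommRing C] [Algebra F C] (v : ℕ → Matrix (Fin n) (Fin n) C) :
    eval v p = 0 := by
  classical
  let g : ℕ → Matrix (Fin n) (Fin n) (MvPolynomial (ℕ × Fin n × Fin n) F) :=
    fun k => Matrix.of fun i j => MvPolynomial.X (k, i, j)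
  have h1 : eval g p = 0 := by
    ext1 i j
    apply MvPolynomial.funext
    intro x
    let φ : MvPolynomial (ℕ × Fin n × Fin n) F →ₐ[F] F := MvPolynomial.aeval x
    have h2 : φ.mapMatrix (eval g p) = eval (fun k => φ.mapMatrix (g k)) p :=
      map_eval (fun M => φ.mapMatrix M) (map_zero _) (map_add _) (map_mul _) (map_smul _) g p
    rw [hp] at h2
    have h3 := congrFun (congrFun h2 i) j
    simpa [φ, MvPolynomial.aeval_eq_eval] using h3
  let ψ : MvPolynomial (ℕ × Fin n × Fin n) F →ₐ[F] C :=
    MvPolynomial.aeval (fun t => v t.1 t.2.1 t.2.2)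
  have h2 : ψ.mapMatrix (eval g p) = eval (fun k => ψ.mapMatrix (g k)) p :=
    map_eval (fun M => ψ.mapMatrix M) (map_zero _) (map_add _) (map_mul _) (map_smul _) g p
  have h3 : (fun k => ψ.mapMatrix (g k)) = v := by
    funext k
    ext i j
    simp [ψ, g]
  rw [h1, h3, map_zero] at h2
  exact h2.symm

/-- `M(m) ⊆ M(n)` for `m ≤ n`. -/
theorem varM_mono {F : Type u} [Field F] {m n : ℕ} (h : m ≤ n) : varM F m ⊆ varM F n := by
  classical
  intro A hA p hp v
  refine hA p (fun w => ?_) v
  let e := Fin.castLEEmb h
  let P : Matrix (Fin n) (Fin m) F := Matrix.of fun i k => if i = e k then 1 else 0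
  have hP : P.transpose * P = 1 := by
    ext i j
    simp only [P, Matrix.mul_apply, Matrix.transpose_apply, Matrix.of_apply, Matrix.one_apply]
    by_cases hij : i = j
    · subst hij
      simp
    · rw [if_neg hij]
      apply Finset.sum_eq_zero
      intro x _
      by_cases hx : x = e i
      · subst hx
        rw [if_pos rfl, if_neg (fun h => hij (e.injective h)), mul_zero]
      · rw [if_neg hx, zero_mul]
  have h1 := map_eval (F := F) (fun M : Matrix (Fin m) (Fin m) F => P * M * P.transpose)
    (by simp) (fun a b => by rw [Matrix.mul_add, Matrix.add_mul])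
    (fun a b => by
      have : P * a * P.transpose * (P * b * P.transpose) =
        P * a * (P.transpose * P) * b * P.transpose := by simp only [Matrix.mul_assoc]
      rw [this, hP, Matrix.mul_one]
      simp only [Matrix.mul_assoc])
    (fun c a => by simp) w p
  rw [hp] at h1
  have h2 : P.transpose * (P * eval w p * P.transpose) * P = 0 := by
    rw [h1]; simp
  have h3 : P.transpose * (P * eval w p * P.transpose) * P =
      (P.transpose * P) * eval w p * (P.transpose * P) := by
    simp only [Matrix.mul_assoc]
  rw [h3, hP, Matrix.one_mul, Matrix.mul_one] at h2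
  exact h2

end Pool.Agent.H261EQ
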