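import Pool.Agent.H261EQ.Std

set_option autoImplicit false

/-!
# Undecidability of the equality problem
-/

namespace Pool.Agent.H261EQ

open Pool.Agent.Helper270.WPSource

universe u

/-! ### The quasi-identities -/

/-- The term with the given coefficient and the given nonempty word. -/
def nw (c : ℤ × ℕ) (l : List ℕ) : (ℤ × ℕ) × ℕ × List ℕ := (c, l.headD 0, l.tail)

section QIs

variable {Q : Type} [Fintype Q] (M : Sys Q Bool)

/-- The numbers of the letters. -/
noncomputable def code (a : ML M) : ℕ := (Finite.equivFin (ML M) a : ℕ)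

theorem code_injective : Function.Injective (code M) := by
  intro a b h
  exact (Finite.equivFin (ML M)).injective (Fin.ext h)

/-- The polynomial of a relation. -/
noncomputable def relPoly (e : List (ML M) × Option (List (ML M))) : RPoly :=
  nw (1, 0) (e.1.map (code M)) ::
    (e.2.map fun l => nw (-1, 0) (l.map (code M))).toList

/-- The quasi-identity of a configuration. -/
noncomputable def qi (q : Q) (n : Bool → ℕ) : QI :=
  ((@Finset.univ (RI M) (Fintype.ofFinite _)).toList.map fun i => relPoly M (rel M i),
    [nw (1, 0) ((cfg M q n).map (code M))])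

omit [Fintype Q] in
theorem rel_ne (i : RI M) : (rel M i).1 ≠ [] ∧ ∀ l ∈ (rel M i).2, l ≠ [] := by
  rcases i with (_ | _) | ⟨q, j⟩ | ⟨q, r⟩ | ⟨q, r, j⟩ | ⟨q, r⟩ <;> simp [rel]

variable {M}

theorem term_eq {A : Type*} {F : Type*} [Field F] [NonUnitalRing A] [Module F A] (v : ℕ → A)
    (c : F) (l : List ℕ) (hl : l ≠ []) :
    c • prodList (((l.headD 0) :: l.tail).map v) = c • prodList (l.map v) := by
  cases l with
  | nil => exact absurd rfl hl
  | cons a l => rfl

theorem phi_prod {A U : Type*} [NonUnitalRing A] [Ring U] (φ : A → U) (h0 : φ 0 = 0)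
    (hmul : ∀ a b, φ (a * b) = φ a * φ b) (v : ℕ → A) (l : List (ML M)) (hl : l ≠ []) :
    φ (prodList ((l.map (code M)).map v)) = (l.map fun a => φ (v (code M a))).prod := by
  rw [map_prodList φ h0 hmul, List.map_map, List.map_map, prodList_eq_prod _ (by simpa using hl)]
  rfl

theorem eval_rel {A U F : Type*} [Field F] [NonUnitalRing A] [Module F A] [Ring U] (φ : A → U)
    (h0 : φ 0 = 0) (hinj : Function.Injective φ)
    (hmul : ∀ a b, φ (a * b) = φ a * φ b) (v : ℕ → A)
    (e : List (ML M) × Option (List (ML M))) (h1 : e.1 ≠ []) (h2 : ∀ l ∈ e.2, l ≠ []) :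
    eval v ((relPoly M e).toPoly F) = 0 ↔ Sat M (fun a => φ (v (code M a))) e := by
  obtain ⟨l₁, _ | l₂⟩ := e
  · have e1 : eval v ((relPoly M (l₁, none)).toPoly F) = prodList ((l₁.map (code M)).map v) := by
      simp only [eval, RPoly.toPoly, relPoly, Option.map_none, Option.toList_none, List.map_cons,
        List.map_nil, List.sum_cons, List.sum_nil, nw, add_zero]
      have := term_eq (F := F) v 1 (l₁.map (code M)) (by simpa using h1)
      simpa using this
    rw [e1]
    change _ ↔ (l₁.map _).prod = 0
    rw [← phi_prod φ h0 hmul v l₁ h1]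
    exact ⟨fun h => by rw [h, h0], fun h => hinj (h.trans h0.symm)⟩
  · have h2' : l₂ ≠ [] := h2 l₂ rfl
    have e1 : eval v ((relPoly M (l₁, some l₂)).toPoly F) =
        prodList ((l₁.map (code M)).map v) - prodList ((l₂.map (code M)).map v) := by
      simp only [eval, RPoly.toPoly, relPoly, Option.map_some, Option.toList_some, List.map_cons,
        List.map_nil, List.sum_cons, List.sum_nil, nw, add_zero]
      have t1 := term_eq (F := F) v 1 (l₁.map (code M)) (by simpa using h1)
      have t2 := term_eq (F := F) v (-1) (l₂.map (code M)) (by simpa using h2')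
      simp only [List.map_cons] at t1 t2
      simp only [Int.cast_one, Int.cast_neg, Nat.cast_zero, zero_add, div_one, t1, t2]
      simp [sub_eq_add_neg]
    rw [e1, sub_eq_zero]
    change _ ↔ (l₁.map _).prod = (l₂.map _).prod
    rw [← phi_prod φ h0 hmul v l₁ h1, ← phi_prod φ h0 hmul v l₂ h2']
    exact ⟨fun h => by rw [h], fun h => hinj h⟩

theorem eval_cfg {A F : Type*} [Field F] [NonUnitalRing A] [Module F A] (v : ℕ → A) (q : Q)
    (n : Bool → ℕ) : eval v ((qi M q n).2.toPoly F) =
      prodList (((cfg M q n).map (code M)).map v) := by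
  simp only [eval, RPoly.toPoly, qi, List.map_cons, List.map_nil, List.sum_cons, List.sum_nil,
    nw, add_zero]
  have := term_eq (F := F) v 1 ((cfg M q n).map (code M)) (by simp [cfg])
  simpa using this

theorem mem_qi (q : Q) (n : Bool → ℕ) (p : RPoly) :
    p ∈ (qi M q n).1 ↔ ∃ i, relPoly M (rel M i) = p := by
  simp [qi]

/-- The quasi-identity holds everywhere if the machine stops. -/
theorem holds_of_halts {F : Type u} [Field F] {q : Q} {n : Bool → ℕ} (h : M.Halts (some q) n)
    (A : AssocAlg F) : (qi M q n).Holds A := by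
  intro v hv
  let φ : A.carrier → Unitization F A.carrier := Unitization.inr
  have h0 : φ 0 = 0 := Unitization.inr_zero F
  have hinj : Function.Injective φ := Unitization.inr_injective
  have hmul : ∀ a b, φ (a * b) = φ a * φ b := fun a b => Unitization.inr_mul F a b
  have hsat : ∀ i, Sat M (fun a => φ (v (code M a))) (rel M i) := by
    intro i
    rw [← eval_rel (F := F) φ h0 hinj hmul v (rel M i) (rel_ne M i).1 (rel_ne M i).2]
    exact hv _ ((mem_qi q n _).2 ⟨i, rfl⟩)
  have h1 := cfg_zero M _ hsat h q rfl
  rw [eval_cfg]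
  apply hinj
  rw [phi_prod φ h0 hmul v _ (by simp [cfg]), h1, h0]

end QIs

/-! ### The model -/

section Model

variable {Q : Type} [Fintype Q] (M : Sys Q Bool) (F : Type u) [Field F]

/-- The algebra of the machine. -/
noncomputable def model : AssocAlg F where
  carrier := NonUnitalAlgebra.adjoin F (Set.range (gen M F))

variable {M F}

theorem coe_prodList (l : List (NonUnitalAlgebra.adjoin F (Set.range (gen M F)))) (hl : l ≠ []) :
    ((prodList l : NonUnitalAlgebra.adjoin F (Set.range (gen M F))) : Qt M F) =
      (l.map Subtype.val).prod := by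
  rw [map_prodList (fun x : NonUnitalAlgebra.adjoin F (Set.range (gen M F)) => (x : Qt M F))
    rfl (fun _ _ => rfl), prodList_eq_prod _ (fun h => hl (List.map_eq_nil_iff.1 h))]

theorem model_varM [Infinite F] : model M F ∈ varM F 3 := by
  intro p hp v
  have h := map_eval (F := F)
    (fun x : NonUnitalAlgebra.adjoin F (Set.range (gen M F)) => (x : Qt M F))
    rfl (fun _ _ => rfl) (fun _ _ => rfl) (fun _ _ => rfl) v p
  rw [qt_identity p hp] at h
  exact Subtype.ext h

theorem closure_words (y : Qt M F) (hy : y ∈ Subsemigroup.closure (Set.range (gen M F))) :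
    ∃ l : List (ML M), l ≠ [] ∧ y = pr M F (l.map (FreeAlgebra.ι F)).prod := by
  induction hy using Subsemigroup.closure_induction with
  | mem x hx =>
    obtain ⟨a, rfl⟩ := hx
    exact ⟨[a], by simp, by simp [gen]⟩
  | mul x y _ _ h1 h2 =>
    obtain ⟨l₁, a1, rfl⟩ := h1
    obtain ⟨l₂, a2, rfl⟩ := h2
    exact ⟨l₁ ++ l₂, by simp [a1], by rw [List.map_append, List.prod_append, map_mul]⟩

theorem model_varS {n : ℕ} (hn : 6 ≤ n) : model M F ∈ varS F n := by
  intro (x : Fin n → NonUnitalAlgebra.adjoin F (Set.range (gen M F)))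
  have hx : ∀ i, ((x i : NonUnitalAlgebra.adjoin F (Set.range (gen M F))) : Qt M F) ∈
      Submodule.span F (Subsemigroup.closure (Set.range (gen M F)) : Set (Qt M F)) := by
    intro i
    rw [← NonUnitalAlgebra.adjoin_eq_span]
    exact (x i).2
  have h1 := multilinear_span (stdM F n (Qt M F))
    (Subsemigroup.closure (Set.range (gen M F)) : Set (Qt M F)) (by
      intro y hy
      choose l hl1 hl2 using fun i => closure_words (y i) (hy i)
      rw [stdM_apply]
      have : y = fun i => pr M F ((l i).map (FreeAlgebra.ι F)).prod := funext hl2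
      rw [this]
      exact std_words hn l hl1) _ hx
  rw [stdM_apply] at h1
  apply Subtype.ext
  have h2 : ∀ (s : Finset (Equiv.Perm (Fin n)))
      (f : Equiv.Perm (Fin n) → NonUnitalAlgebra.adjoin F (Set.range (gen M F))),
      ((∑ σ ∈ s, f σ : NonUnitalAlgebra.adjoin F (Set.range (gen M F))) : Qt M F) =
        ∑ σ ∈ s, (f σ : Qt M F) := by
    intro s f
    exact map_sum (NonUnitalSubalgebraClass.subtype
      (NonUnitalAlgebra.adjoin F (Set.range (gen M F)))) f s
  refine (h2 _ _).trans ?_
  refine Eq.trans ?_ h1
  unfold std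
  apply Finset.sum_congr rfl
  intro σ _
  have h3 : ∀ (z : ℤ) (a : NonUnitalAlgebra.adjoin F (Set.range (gen M F))),
      ((z • a : NonUnitalAlgebra.adjoin F (Set.range (gen M F))) : Qt M F) = z • (a : Qt M F) :=
    fun z a => map_zsmul (NonUnitalSubalgebraClass.subtype
      (NonUnitalAlgebra.adjoin F (Set.range (gen M F)))) z a
  refine (h3 _ _).trans ?_
  congr 1
  have hne : (List.ofFn fun i => x (σ i)) ≠ [] := by
    intro h
    have := congrArg List.length h
    simp at this
    omega
  refine (coe_prodList _ hne).trans ?_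
  rw [List.map_ofFn]
  rfl

theorem not_holds {q : Q} {n : Bool → ℕ} (h : ¬ M.Halts (some q) n) :
    ¬ (qi M q n).Holds (model M F) := by
  classical
  intro hh
  let g : ML M → NonUnitalAlgebra.adjoin F (Set.range (gen M F)) := fun a =>
    ⟨gen M F a, NonUnitalAlgebra.subset_adjoin F ⟨a, rfl⟩⟩
  let v : ℕ → NonUnitalAlgebra.adjoin F (Set.range (gen M F)) :=
    fun k => if h : ∃ a, code M a = k then g h.choose else 0
  have hv : ∀ a, v (code M a) = g a := by
    intro a
    have h : ∃ b, code M b = code M a := ⟨a, rfl⟩
    simp only [v, dif_pos h]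
    rw [code_injective M h.choose_spec]
  have h1 := hh v (by
    intro p hp
    obtain ⟨i, rfl⟩ := (mem_qi q n p).1 hp
    refine (eval_rel (F := F)
      (fun x : NonUnitalAlgebra.adjoin F (Set.range (gen M F)) => (x : Qt M F))
      rfl Subtype.val_injective (fun _ _ => rfl) v (rel M i) (rel_ne M i).1 (rel_ne M i).2).2 ?_
    have : (fun a => ((v (code M a) : NonUnitalAlgebra.adjoin F (Set.range (gen M F))) :
      Qt M F)) = gen M F := by
      funext a
      rw [hv]
    rw [this]
    exact sat_gen i)
  have h2 : prodList (((cfg M q n).map (code M)).map v) = 0 := by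
    rw [← eval_cfg (F := F)]
    exact h1
  have h3 := phi_prod (M := M)
    (fun x : NonUnitalAlgebra.adjoin F (Set.range (gen M F)) => (x : Qt M F))
    rfl (fun _ _ => rfl) v (cfg M q n) (by simp [cfg])
  rw [h2] at h3
  have : (fun a => ((v (code M a) : NonUnitalAlgebra.adjoin F (Set.range (gen M F))) :
      Qt M F)) = gen M F := by
    funext a
    rw [hv]
  rw [this] at h3
  exact cfg_ne_zero h h3.symm

end Model

/-! ### Undecidability -/

theorem replicate_computable (c : ℕ) : Computable (fun n : ℕ => List.replicate n c) := by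
  have h : Primrec (fun n : ℕ => (List.range n).map fun _ => c) :=
    Primrec.list_map Primrec.list_range (Primrec.const c).to₂
  refine h.to_comp.of_eq ?_
  intro n
  simp

theorem cfg_ini {Q : Type} [Fintype Q] (M : Sys Q Bool) (q : Q) (N : ℕ) :
    nw (1, 0) ((cfg M q (ini N)).map (code M)) =
      ((1, 0), code M Lt.L, List.replicate N (code M (Lt.x true)) ++
        [code M (P M q), code M Lt.R]) := by
  simp [nw, cfg, pw, ini]

theorem undecidable {F : Type u} [Field F] (K : Set (AssocAlg F))
    (hK : ∀ (Q : Type) (_ : Fintype Q) (M : Sys Q Bool), model M F ∈ K) :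
    ¬ EqualityDecidable K := by
  intro hdec
  obtain ⟨Q, hQ, M, q0, N, -, -, hN, hund⟩ := exists_sys
  let _ : Fintype Q := Fintype.ofFinite Q
  apply hund
  have hred : ManyOneReducible (fun n => M.Halts (some q0) (ini (N n)))
      (fun q : QI => ∀ A ∈ K, q.Holds A) := by
    refine ⟨fun n => qi M q0 (ini (N n)), ?_, ?_⟩
    · have h1 : Computable (fun n => List.replicate (N n) (code M (Lt.x true)) ++
          [code M (P M q0), code M Lt.R]) :=
        (Primrec.list_append.to_comp).comp ((replicate_computable _).comp hN)
          (Computable.const _)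
      have h2 : Computable (fun n => ((((1, 0), code M Lt.L,
          List.replicate (N n) (code M (Lt.x true)) ++ [code M (P M q0), code M Lt.R]) :
            (ℤ × ℕ) × ℕ × List ℕ))) :=
        Computable.pair (Computable.const _) (Computable.pair (Computable.const _) h1)
      have h3 : Computable (fun n => ([((1, 0), code M Lt.L,
          List.replicate (N n) (code M (Lt.x true)) ++ [code M (P M q0), code M Lt.R])] :
            RPoly)) :=
        Computable.list_cons.comp h2 (Computable.const [])
      refine (Computable.pair (Computable.const (qi M q0 (ini 0)).1) h3).of_eq ?_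
      intro n
      simp only [qi, cfg_ini]
    · intro n
      constructor
      · intro h A _
        exact holds_of_halts h A
      · intro h
        by_contra h'
        exact not_holds h' (h _ (hK Q _ M))
  exact ComputablePred.computable_of_manyOneReducible hred hdec

end Pool.Agent.H261EQ
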