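import Pool.Agent.H261EQ.Rel

set_option autoImplicit false

/-!
# The algebra of a computation
-/

namespace Pool.Agent.H261EQ

open Pool.Agent.Helper270.WPSource MvPolynomial

universe u

section Vals

variable {Q : Type} (M : Sys Q Bool) (F : Type u) [Field F]

open Classical in
/-- `0` if the machine stops and `1` otherwise. -/
noncomputable def H (o : Option Q) (n : Bool → ℕ) : F := if M.Halts o n then 0 else 1

theorem H_none (n : Bool → ℕ) : H M F none n = 0 := by
  unfold H
  rw [if_pos (Sys.Halts.stop n)]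

theorem H_step (q : Q) (n : Bool → ℕ) :
    H M F (some q) n = H M F (M.nxt q (M.res n)) (M.nn q n) := by
  classical
  unfold H
  have : M.Halts (some q) n ↔ M.Halts (M.nxt q (M.res n)) (M.nn q n) := by
    constructor
    · intro h
      cases h with
      | step _ _ h => exact h
    · exact Sys.Halts.step q n
  simp only [this]

/-- The values of the state letters. -/
noncomputable def vl (a : St Q M.B) (m k : Bool → ℕ) : F :=
  match a with
  | .inl q => H M F (some q) (fun j => m j + M.B * k j)
  | .inr (q, r) => H M F (M.nxt q r) (fun j => m j + M.a q r j * k j + M.b q r j)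

variable [Fintype Q]

/-- The values of the monomials. -/
noncomputable def tval (m : ML M →₀ ℕ) : F :=
  if m .L = 1 ∧ m .R = 1 ∧ ∑ a : St Q M.B, m (.t a) = 1 then
    ∑ a : St Q M.B, (m (.t a) : F) * vl M F a (fun j => m (.x j)) (fun j => m (.y j))
  else 0

/-- The value function. -/
noncomputable def T : MvPolynomial (ML M) F →ₗ[F] F :=
  (MvPolynomial.basisMonomials (ML M) F).constr F (tval M F)

theorem T_one (m : ML M →₀ ℕ) : T M F (monomial m 1) = tval M F m := by
  have := (MvPolynomial.basisMonomials (ML M) F).constr_basis F (tval M F) m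
  rwa [coe_basisMonomials] at this

theorem T_monomial (m : ML M →₀ ℕ) (c : F) : T M F (monomial m c) = c * tval M F m := by
  have : (monomial m c : MvPolynomial (ML M) F) = c • monomial m 1 := by
    rw [smul_monomial, smul_eq_mul, mul_one]
  rw [this, map_smul, T_one, smul_eq_mul]

theorem T_mul (g : MvPolynomial (ML M) F) (e : ML M →₀ ℕ) :
    T M F (g * monomial e 1) = ∑ m ∈ g.support, coeff m g * tval M F (m + e) := by
  conv_lhs => rw [← support_sum_monomial_coeff g]
  rw [Finset.sum_mul, map_sum]
  apply Finset.sum_congr rfl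
  intro m _
  rw [monomial_mul, T_monomial, mul_one]

theorem T_mul_congr {g : MvPolynomial (ML M) F} {e₁ e₂ : ML M →₀ ℕ}
    (h : ∀ m ∈ g.support, tval M F (m + e₁) = tval M F (m + e₂)) :
    T M F (g * monomial e₁ 1) = T M F (g * monomial e₂ 1) := by
  rw [T_mul, T_mul]
  exact Finset.sum_congr rfl fun m hm => by rw [h m hm]

theorem T_mul_zero {g : MvPolynomial (ML M) F} {e : ML M →₀ ℕ}
    (h : ∀ m ∈ g.support, tval M F (m + e) = 0) : T M F (g * monomial e 1) = 0 := by
  rw [T_mul]
  exact Finset.sum_eq_zero fun m hm => by rw [h m hm, mul_zero]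

open Classical in
theorem tval_t (m : ML M →₀ ℕ) (a : St Q M.B) :
    tval M F (m + Finsupp.single (.t a) 1) =
      if m .L = 1 ∧ m .R = 1 ∧ ∀ b, m (.t b) = 0 then
        vl M F a (fun j => m (.x j)) (fun j => m (.y j)) else 0 := by
  have e1 : ∀ b : St Q M.B, (m + Finsupp.single (.t a) 1 : ML M →₀ ℕ) (.t b) =
      m (.t b) + if b = a then 1 else 0 := by
    intro b
    rw [Finsupp.add_apply]
    by_cases h : b = a
    · subst h; simp
    · rw [if_neg h, Finsupp.single_eq_of_ne (by simpa using h)]
  have e2 : ∀ c : ML M, (∀ b, c ≠ .t b) →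
      (m + Finsupp.single (.t a) 1 : ML M →₀ ℕ) c = m c := by
    intro c hc
    rw [Finsupp.add_apply, Finsupp.single_eq_of_ne (by simpa using hc a), add_zero]
  have e3 : ∑ b : St Q M.B, (m + Finsupp.single (.t a) 1 : ML M →₀ ℕ) (.t b) =
      ∑ b : St Q M.B, m (.t b) + 1 := by
    simp only [e1, Finset.sum_add_distrib]
    simp
  have e4 : ∑ b : St Q M.B, m (.t b) = 0 ↔ ∀ b, m (.t b) = 0 := by simp
  unfold tval
  rw [e3, e2 .L (by simp), e2 .R (by simp)]
  by_cases h : m .L = 1 ∧ m .R = 1 ∧ ∀ b, m (.t b) = 0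
  · rw [if_pos h, if_pos ⟨h.1, h.2.1, by rw [e4.2 h.2.2]⟩]
    simp only [e1, h.2.2]
    have e5 : (fun j => (m + Finsupp.single (.t a) 1 : ML M →₀ ℕ) (.x j)) =
        fun j => m (.x j) := funext fun j => e2 _ (by simp)
    have e6 : (fun j => (m + Finsupp.single (.t a) 1 : ML M →₀ ℕ) (.y j)) =
        fun j => m (.y j) := funext fun j => e2 _ (by simp)
    rw [e5, e6]
    simp
  · rw [if_neg h, if_neg]
    rintro ⟨h1, h2, h3⟩
    exact h ⟨h1, h2, e4.1 (by omega)⟩

end Vals

/-! ### The matrices -/

section Mat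

variable {Q : Type} (M : Sys Q Bool) (F : Type u) [Field F]

/-- The matrices over the polynomials in the letters. -/
abbrev Mx : Type _ := Matrix (Fin 3) (Fin 3) (MvPolynomial (ML M) F)

/-- The matrices of the letters. -/
noncomputable def G : ML M → Mx M F
  | .L => Matrix.single 0 1 (monomial (Finsupp.single .L 1) 1)
  | .R => Matrix.single 2 0 (monomial (Finsupp.single .R 1) 1)
  | .x j => Matrix.single 1 1 (monomial (Finsupp.single (.x j) 1) 1)
  | .y j => Matrix.single 2 2 (monomial (Finsupp.single (.y j) 1) 1)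
  | .t a => Matrix.single 1 2 (monomial (Finsupp.single (.t a) 1) 1)

/-- The support property of the matrices of the free algebra. -/
def Pr (N : Mx M F) : Prop :=
  (∀ i j m, i ≠ 1 → m ∈ (N i j).support → m .L = 0 → (∀ b, m (.x b) = 0) ∧ j ≠ 1) ∧
  (∀ i j m, j ≠ 2 → m ∈ (N i j).support → m .R = 0 → (∀ b, m (.y b) = 0) ∧ i ≠ 2)

variable {M F}

theorem mem_support_mul {p q : MvPolynomial (ML M) F} {m : ML M →₀ ℕ}
    (h : m ∈ (p * q).support) : ∃ m₁ ∈ p.support, ∃ m₂ ∈ q.support, m = m₁ + m₂ := by
  classical
  have := MvPolynomial.support_mul p q h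
  obtain ⟨a, ha, b, hb, e⟩ := Finset.mem_add.1 this
  exact ⟨a, ha, b, hb, e.symm⟩

theorem Pr.mul {N N' : Mx M F} (h : Pr M F N) (h' : Pr M F N') : Pr M F (N * N') := by
  classical
  have key : ∀ i j m, m ∈ ((N * N') i j).support → ∃ k, ∃ m₁ ∈ (N i k).support,
      ∃ m₂ ∈ (N' k j).support, m = m₁ + m₂ := by
    intro i j m hm
    rw [Matrix.mul_apply] at hm
    have := MvPolynomial.support_sum hm
    simp only [Finset.mem_biUnion] at this
    obtain ⟨k, _, hk⟩ := this
    exact ⟨k, mem_support_mul hk⟩
  constructor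
  · intro i j m hi hm hL
    obtain ⟨k, m₁, h₁, m₂, h₂, rfl⟩ := key i j m hm
    simp only [Finsupp.add_apply, Nat.add_eq_zero_iff] at hL
    obtain ⟨a1, a2⟩ := h.1 i k m₁ hi h₁ hL.1
    obtain ⟨b1, b2⟩ := h'.1 k j m₂ a2 h₂ hL.2
    exact ⟨fun b => by simp [a1 b, b1 b], b2⟩
  · intro i j m hj hm hR
    obtain ⟨k, m₁, h₁, m₂, h₂, rfl⟩ := key i j m hm
    simp only [Finsupp.add_apply, Nat.add_eq_zero_iff] at hR
    obtain ⟨b1, b2⟩ := h'.2 k j m₂ hj h₂ hR.2
    obtain ⟨a1, a2⟩ := h.2 i k m₁ b2 h₁ hR.1
    exact ⟨fun b => by simp [a1 b, b1 b], a2⟩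

theorem Pr.add {N N' : Mx M F} (h : Pr M F N) (h' : Pr M F N') : Pr M F (N + N') := by
  classical
  have key : ∀ i j m, m ∈ ((N + N') i j).support → m ∈ (N i j).support ∨
      m ∈ (N' i j).support := by
    intro i j m hm
    rw [Matrix.add_apply] at hm
    exact Finset.mem_union.1 (MvPolynomial.support_add hm)
  constructor
  · intro i j m hi hm hL
    rcases key i j m hm with h1 | h1
    · exact h.1 i j m hi h1 hL
    · exact h'.1 i j m hi h1 hL
  · intro i j m hj hm hR
    rcases key i j m hm with h1 | h1
    · exact h.2 i j m hj h1 hR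
    · exact h'.2 i j m hj h1 hR

theorem Pr.algMap (c : F) : Pr M F (algebraMap F (Mx M F) c) := by
  classical
  have key : ∀ i j m, m ∈ ((algebraMap F (Mx M F) c) i j).support → m = 0 ∧ i = j := by
    intro i j m hm
    rw [Matrix.algebraMap_matrix_apply] at hm
    split_ifs at hm with h
    · refine ⟨?_, h⟩
      rw [MvPolynomial.algebraMap_eq, MvPolynomial.mem_support_iff, MvPolynomial.coeff_C] at hm
      by_contra h0
      exact hm (if_neg (fun h => h0 h.symm))
    · simp at hm
  constructor
  · intro i j m hi hm hL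
    obtain ⟨rfl, rfl⟩ := key i j m hm
    exact ⟨fun b => rfl, hi⟩
  · intro i j m hj hm hR
    obtain ⟨rfl, rfl⟩ := key i j m hm
    exact ⟨fun b => rfl, hj⟩

theorem mem_support_single {i j i' j' : Fin 3} {e m : ML M →₀ ℕ}
    (h : m ∈ ((Matrix.single i j (monomial e (1 : F)) : Mx M F) i' j').support) :
    m = e ∧ i' = i ∧ j' = j := by
  classical
  rw [Matrix.single_apply] at h
  split_ifs at h with h1
  · refine ⟨?_, h1.1.symm, h1.2.symm⟩
    have := MvPolynomial.support_monomial_subset h
    exact Finset.mem_singleton.1 this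
  · simp at h

theorem Pr.G (a : ML M) : Pr M F (G M F a) := by
  cases a with
  | L =>
    constructor
    · intro i j m hi hm hL
      obtain ⟨rfl, rfl, rfl⟩ := mem_support_single hm
      simp at hL
    · intro i j m hi hm hL
      obtain ⟨rfl, rfl, rfl⟩ := mem_support_single hm
      exact ⟨fun b => by simp, by decide⟩
  | R =>
    constructor
    · intro i j m hi hm hL
      obtain ⟨rfl, rfl, rfl⟩ := mem_support_single hm
      exact ⟨fun b => by simp, by decide⟩
    · intro i j m hi hm hL
      obtain ⟨rfl, rfl, rfl⟩ := mem_support_single hm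
      simp at hL
  | x b =>
    constructor
    · intro i j m hi hm hL
      obtain ⟨rfl, rfl, rfl⟩ := mem_support_single hm
      exact absurd rfl hi
    · intro i j m hi hm hL
      obtain ⟨rfl, rfl, rfl⟩ := mem_support_single hm
      exact ⟨fun b => by simp, by decide⟩
  | y b =>
    constructor
    · intro i j m hi hm hL
      obtain ⟨rfl, rfl, rfl⟩ := mem_support_single hm
      exact ⟨fun b => by simp, by decide⟩
    · intro i j m hi hm hL
      obtain ⟨rfl, rfl, rfl⟩ := mem_support_single hm
      exact absurd rfl hi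
  | t b =>
    constructor
    · intro i j m hi hm hL
      obtain ⟨rfl, rfl, rfl⟩ := mem_support_single hm
      exact absurd rfl hi
    · intro i j m hi hm hL
      obtain ⟨rfl, rfl, rfl⟩ := mem_support_single hm
      exact absurd rfl hi

variable (M F)

/-- The evaluation of the free algebra. -/
noncomputable def ev : FreeAlgebra F (ML M) →ₐ[F] Mx M F := FreeAlgebra.lift F (G M F)

variable {M F}

theorem ev_ι (a : ML M) : ev M F (FreeAlgebra.ι F a) = G M F a := FreeAlgebra.lift_ι_apply _ _

theorem Pr.ev (a : FreeAlgebra F (ML M)) : Pr M F (ev M F a) := by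
  induction a using FreeAlgebra.induction with
  | grade0 r => rw [AlgHom.commutes]; exact Pr.algMap r
  | grade1 x => rw [ev_ι]; exact Pr.G x
  | mul a b ha hb => rw [map_mul]; exact ha.mul hb
  | add a b ha hb => rw [map_add]; exact ha.add hb

theorem ev_word (l : List (ML M)) :
    ev M F (l.map (FreeAlgebra.ι F)).prod = (l.map (G M F)).prod := by
  rw [map_list_prod, List.map_map]
  congr 1
  apply List.map_congr_left
  intro a _
  exact ev_ι a

theorem mul_single_mul (U W : Mx M F) (i j k l : Fin 3) (a : MvPolynomial (ML M) F) :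
    (U * Matrix.single i j a * W) k l = U k i * W j l * a := by
  classical
  rw [Matrix.mul_apply]
  have : ∀ x, (U * Matrix.single i j a) k x = if x = j then U k i * a else 0 := by
    intro x
    by_cases h : x = j
    · subst h; simp
    · rw [if_neg h]; exact Matrix.mul_single_apply_of_ne a i j k x h U
  simp only [this, ite_mul, zero_mul]
  rw [Finset.sum_ite_eq' Finset.univ j]
  simp only [Finset.mem_univ, if_true]
  ring

/-! ### The matrices of words -/

theorem pow_single_mul (i j : Fin 3) (a b : MvPolynomial (ML M) F) (k : ℕ) :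
    (Matrix.single i i a : Mx M F) ^ k * Matrix.single i j b =
      Matrix.single i j (a ^ k * b) := by
  induction k with
  | zero => simp
  | succ k ih =>
    rw [pow_succ', mul_assoc, ih, Matrix.single_mul_single_same, ← mul_assoc, ← pow_succ']

/-- The exponent of the word `pw f`. -/
noncomputable def ex (f : Bool → ℕ) : ML M →₀ ℕ :=
  Finsupp.single (.x true) (f true) + Finsupp.single (.x false) (f false)

theorem replicate_word (j : Bool) (k : ℕ) (e : ML M →₀ ℕ) :
    ((List.replicate k (.x j) : List (ML M)).map (G M F)).prod *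
      Matrix.single 1 2 (monomial e 1) =
      Matrix.single 1 2 (monomial (Finsupp.single (.x j) k + e) 1) := by
  rw [List.map_replicate, List.prod_replicate]
  simp only [G]
  rw [pow_single_mul, monomial_pow, monomial_mul]
  simp

theorem pw_word (f : Bool → ℕ) (e : ML M →₀ ℕ) :
    ((pw f : List (ML M)).map (G M F)).prod * Matrix.single 1 2 (monomial e 1) =
      Matrix.single 1 2 (monomial (ex f + e) 1) := by
  unfold pw ex
  rw [List.map_append, List.prod_append, mul_assoc, replicate_word, replicate_word, add_assoc]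

end Mat

end Pool.Agent.H261EQ
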