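import Pool.Agent.H261EQ.Defs
import Pool.Agent.Helper270.WPSource

set_option autoImplicit false

/-!
# The quasi-identities coding a counter machine
-/

namespace Pool.Agent.H261EQ

open Pool.Agent.Helper270.WPSource

/-- The letters; `t` is for the states. -/
inductive Lt (S : Type) : Type
  | L : Lt S
  | R : Lt S
  | x (j : Bool) : Lt S
  | y (j : Bool) : Lt S
  | t (a : S) : Lt S

namespace Lt

variable {S : Type}

def toSum : Lt S → Bool ⊕ Bool ⊕ Bool ⊕ S
  | L => .inl true
  | R => .inl false
  | x j => .inr (.inl j)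
  | y j => .inr (.inr (.inl j))
  | t a => .inr (.inr (.inr a))

theorem toSum_injective : Function.Injective (toSum : Lt S → _) := by
  intro a b h
  cases a <;> cases b <;> simp_all [toSum]

instance [Finite S] : Finite (Lt S) := Finite.of_injective _ toSum_injective

end Lt

/-- The state letters. -/
abbrev St (Q : Type) (B : ℕ) : Type := Q ⊕ (Q × (Bool → Fin B))

variable {Q : Type} (M : Sys Q Bool)

/-- The letters of the machine. -/
abbrev ML : Type := Lt (St Q M.B)

/-- The state letter `p_q`. -/
abbrev P (q : Q) : ML M := Lt.t (Sum.inl q)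

/-- The state letter `s_{q,r}`. -/
abbrev SS (q : Q) (r : Bool → Fin M.B) : ML M := Lt.t (Sum.inr (q, r))

/-- The word `x_true ^ f true * x_false ^ f false`. -/
def pw {S : Type} (f : Bool → ℕ) : List (Lt S) :=
  List.replicate (f true) (Lt.x true) ++ List.replicate (f false) (Lt.x false)

/-- The indices of the relations. -/
abbrev RI : Type :=
  Bool ⊕ (Q × Bool) ⊕ (Q × (Bool → Fin M.B)) ⊕ (Q × (Bool → Fin M.B) × Bool) ⊕
    (Q × (Bool → Fin M.B))

/-- The relations: `(l₁, some l₂)` stands for `l₁ = l₂` and `(l₁, none)` stands for `l₁ = 0`. -/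
def rel : RI M → List (ML M) × Option (List (ML M))
  | .inl true => ([Lt.x true, Lt.x false], some [Lt.x false, Lt.x true])
  | .inl false => ([Lt.y true, Lt.y false], some [Lt.y false, Lt.y true])
  | .inr (.inl (q, j)) => (List.replicate M.B (Lt.x j) ++ [P M q], some [P M q, Lt.y j])
  | .inr (.inr (.inl (q, r))) =>
      (Lt.L :: (pw (fun j => (r j : ℕ)) ++ [P M q]), some [Lt.L, SS M q r])
  | .inr (.inr (.inr (.inl (q, r, j)))) =>
      ([SS M q r, Lt.y j], some (List.replicate (M.a q r j) (Lt.x j) ++ [SS M q r]))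
  | .inr (.inr (.inr (.inr (q, r)))) =>
      ([SS M q r, Lt.R], (M.nxt q r).map fun q' => pw (M.b q r) ++ [P M q', Lt.R])

/-- The word of a configuration. -/
def cfg (q : Q) (n : Bool → ℕ) : List (ML M) := Lt.L :: (pw n ++ [P M q, Lt.R])

/-! ### Halting gives zero -/

section Halt

variable {U : Type*} [Ring U] (g : ML M → U)

/-- The relation holds. -/
def Sat (g : ML M → U) (e : List (ML M) × Option (List (ML M))) : Prop :=
  (e.1.map g).prod = (e.2.map fun l => (l.map g).prod).getD 0

theorem pw_prod (f : Bool → ℕ) :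
    ((pw f : List (ML M)).map g).prod = g (Lt.x true) ^ f true * g (Lt.x false) ^ f false := by
  simp [pw]

theorem cfg_zero (hg : ∀ i, Sat M g (rel M i)) {o : Option Q} {n : Bool → ℕ}
    (h : M.Halts o n) : ∀ q, o = some q → ((cfg M q n).map g).prod = 0 := by
  have hx : Commute (g (Lt.x true)) (g (Lt.x false)) := by
    have := hg (.inl true)
    have h : g (Lt.x true) * g (Lt.x false) = g (Lt.x false) * g (Lt.x true) := by
      simpa [Sat, rel] using this
    exact h
  have hy : Commute (g (Lt.y true)) (g (Lt.y false)) := by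
    have := hg (.inl false)
    have h : g (Lt.y true) * g (Lt.y false) = g (Lt.y false) * g (Lt.y true) := by
      simpa [Sat, rel] using this
    exact h
  have h2 : ∀ q j, g (Lt.x j) ^ M.B * g (P M q) = g (P M q) * g (Lt.y j) := by
    intro q j
    have := hg (.inr (.inl (q, j)))
    simpa [Sat, rel] using this
  have h3 : ∀ q r, g Lt.L * (g (Lt.x true) ^ (r true : ℕ) * g (Lt.x false) ^ (r false : ℕ) *
      g (P M q)) = g Lt.L * g (SS M q r) := by
    intro q r
    have := hg (.inr (.inr (.inl (q, r))))
    simpa [Sat, rel, pw, mul_assoc] using this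
  have h4 : ∀ q r j, g (SS M q r) * g (Lt.y j) = g (Lt.x j) ^ (M.a q r j) * g (SS M q r) := by
    intro q r j
    have := hg (.inr (.inr (.inr (.inl (q, r, j)))))
    simpa [Sat, rel] using this
  have h2' : ∀ q j k, g (Lt.x j) ^ (M.B * k) * g (P M q) = g (P M q) * g (Lt.y j) ^ k := by
    intro q j k
    induction k with
    | zero => simp
    | succ k ih =>
      rw [Nat.mul_succ, pow_add, mul_assoc, h2, ← mul_assoc, ih, mul_assoc, pow_succ]
  have h4' : ∀ q r j k, g (SS M q r) * g (Lt.y j) ^ k =
      g (Lt.x j) ^ (M.a q r j * k) * g (SS M q r) := by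
    intro q r j k
    induction k with
    | zero => simp
    | succ k ih =>
      rw [pow_succ, ← mul_assoc, ih, mul_assoc, h4, ← mul_assoc, ← pow_add, Nat.mul_succ]
  induction h with
  | stop n => intro q hq; exact absurd hq (by simp)
  | step q n _ ih =>
    intro q₁ hq₁
    obtain rfl := Option.some.inj hq₁
    have e : ((cfg M q n).map g).prod = g Lt.L * (g (Lt.x true) ^ n true *
        g (Lt.x false) ^ n false * (g (P M q) * g Lt.R)) := by
      simp [cfg, pw, mul_assoc]
    rw [e]
    have hn : ∀ j, n j = M.B * (n j / M.B) + n j % M.B := fun j => (Nat.div_add_mod _ _).symm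
    set r := M.res n with hr
    have hrj : ∀ j, (r j : ℕ) = n j % M.B := fun j => rfl
    -- move the blocks through `p`
    have s1 : g (Lt.x true) ^ n true * g (Lt.x false) ^ n false * g (P M q) =
        g (Lt.x true) ^ (r true : ℕ) * g (Lt.x false) ^ (r false : ℕ) * g (P M q) *
          (g (Lt.y true) ^ (n true / M.B) * g (Lt.y false) ^ (n false / M.B)) := by
      rw [hn true, hn false, pow_add, pow_add, ← hrj, ← hrj]
      have c1 : Commute (g (Lt.x true) ^ (M.B * (n true / M.B)))
          (g (Lt.x true) ^ (r true : ℕ)) := Commute.pow_pow (Commute.refl _) _ _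
      have c2 : Commute (g (Lt.x false) ^ (M.B * (n false / M.B)))
          (g (Lt.x false) ^ (r false : ℕ)) := Commute.pow_pow (Commute.refl _) _ _
      have c3 : Commute (g (Lt.x true) ^ (M.B * (n true / M.B)))
          (g (Lt.x false) ^ (r false : ℕ)) := hx.pow_pow _ _
      rw [c1.eq, c2.eq]
      rw [mul_assoc (g (Lt.x true) ^ (r true : ℕ)), ← mul_assoc (g (Lt.x true) ^
        (M.B * (n true / M.B))), c3.eq]
      simp only [mul_assoc]
      have e1 : (M.B * (n true / M.B) + ↑(r true)) / M.B = n true / M.B := by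
        rw [hrj, ← hn]
      have e2 : (M.B * (n false / M.B) + ↑(r false)) / M.B = n false / M.B := by
        rw [hrj, ← hn]
      rw [e1, e2, h2', ← mul_assoc (g (Lt.x true) ^ (M.B * (n true / M.B))), h2']
      simp only [mul_assoc]
    have s2 : g Lt.L * (g (Lt.x true) ^ n true * g (Lt.x false) ^ n false *
        (g (P M q) * g Lt.R)) = g Lt.L * (g (Lt.x true) ^ (M.a q r true * (n true / M.B)) *
          g (Lt.x false) ^ (M.a q r false * (n false / M.B)) * (g (SS M q r) * g Lt.R)) := by
      rw [← mul_assoc (_ * _) (g (P M q)), s1, ← mul_assoc, ← mul_assoc, h3]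
      rw [mul_assoc (g Lt.L), ← mul_assoc (g (SS M q r)), h4']
      rw [mul_assoc (g (Lt.x true) ^ (M.a q r true * (n true / M.B))), h4']
      simp only [mul_assoc]
    rw [s2]
    have h5 := hg (.inr (.inr (.inr (.inr (q, r)))))
    cases hq' : M.nxt q r with
    | none =>
      have h5' : g (SS M q r) * g Lt.R = 0 := by
        simpa [Sat, rel, hq'] using h5
      rw [h5']; simp
    | some q' =>
      have h5' : g (SS M q r) * g Lt.R = g (Lt.x true) ^ (M.b q r true) *
          (g (Lt.x false) ^ (M.b q r false) * (g (P M q') * g Lt.R)) := by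
        simpa [Sat, rel, hq', pw, mul_assoc] using h5
      rw [h5']
      have h6 := ih q' hq'
      have e' : ((cfg M q' (M.nn q n)).map g).prod = g Lt.L * (g (Lt.x true) ^ (M.nn q n true) *
          (g (Lt.x false) ^ (M.nn q n false) * (g (P M q') * g Lt.R))) := by
        simp [cfg, pw, mul_assoc]
      rw [e'] at h6
      have c4 : Commute (g (Lt.x false) ^ (M.a q r false * (n false / M.B)))
          (g (Lt.x true) ^ (M.b q r true)) := (hx.symm).pow_pow _ _
      rw [← h6]
      simp only [Sys.nn, pow_add, ← hr, mul_assoc]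
      rw [← mul_assoc (g (Lt.x false) ^ (M.a q r false * (n false / M.B)))
        (g (Lt.x true) ^ (M.b q r true)), c4.eq]
      simp only [mul_assoc]

end Halt

end Pool.Agent.H261EQ
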