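import Pool.Agent.H261EQ.Alg

set_option autoImplicit false

/-!
# Standard identities
-/

namespace Pool.Agent.H261EQ

open Pool.Agent.Helper270.WPSource MvPolynomial

universe u

/-! ### Generalities -/

theorem prod_swap {ι R : Type*} [DecidableEq ι] [Ring R] (f : ι → R) {i j : ι} (hij : i ≠ j)
    (h : ∀ c, f i * c * f j = f j * c * f i) (l : List ι) (hl : l.Nodup) (hi : i ∈ l)
    (hj : j ∈ l) : (l.map fun k => f (Equiv.swap i j k)).prod = (l.map f).prod := by
  have main : ∀ (i j : ι), i ≠ j → (∀ c, f i * c * f j = f j * c * f i) →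
      ∀ l₁ l₂ l₃ : List ι, (l₁ ++ i :: (l₂ ++ j :: l₃)).Nodup →
      ((l₁ ++ i :: (l₂ ++ j :: l₃)).map fun k => f (Equiv.swap i j k)).prod =
        ((l₁ ++ i :: (l₂ ++ j :: l₃)).map f).prod := by
    intro i j hij h l₁ l₂ l₃ hl
    have hsame : ∀ l' : List ι, i ∉ l' → j ∉ l' →
        (l'.map fun k => f (Equiv.swap i j k)) = l'.map f := by
      intro l' h1 h2
      apply List.map_congr_left
      intro k hk
      have hki : k ≠ i := by rintro rfl; exact h1 hk
      have hkj : k ≠ j := by rintro rfl; exact h2 hk
      rw [Equiv.swap_apply_of_ne_of_ne hki hkj]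
    have hc := List.nodup_append.1 hl
    have hc2 := List.nodup_cons.1 hc.2.1
    have hc3 := List.nodup_append.1 hc2.2
    have hc4 := List.nodup_cons.1 hc3.2.1
    have e1 := hsame l₁ (fun hm => hc.2.2 i hm i (by simp) rfl)
      (fun hm => hc.2.2 j hm j (by simp) rfl)
    have e2 := hsame l₂ (fun hm => hc2.1 (by simp [hm]))
      (fun hm => hc3.2.2 j hm j (by simp) rfl)
    have e3 := hsame l₃ (fun hm => hc2.1 (by simp [hm])) hc4.1
    simp only [List.map_append, List.map_cons, List.prod_append, List.prod_cons, e1, e2, e3,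
      Equiv.swap_apply_left, Equiv.swap_apply_right]
    have := h (l₂.map f).prod
    congr 1
    rw [← mul_assoc, ← mul_assoc, ← mul_assoc, ← mul_assoc, this]
  obtain ⟨l₁, l₂, rfl⟩ := List.append_of_mem hi
  rw [List.mem_append, List.mem_cons] at hj
  rcases hj with hj | hj | hj
  · obtain ⟨l₃, l₄, rfl⟩ := List.append_of_mem hj
    have e : l₃ ++ j :: l₄ ++ i :: l₂ = l₃ ++ j :: (l₄ ++ i :: l₂) := by simp
    rw [e] at hl ⊢
    have := main j i hij.symm (fun c => (h c).symm) l₃ l₄ l₂ hl
    rw [Equiv.swap_comm] at this
    exact this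
  · exact absurd hj.symm hij
  · obtain ⟨l₃, l₄, rfl⟩ := List.append_of_mem hj
    exact main i j hij h l₁ l₃ l₄ hl

/-- The standard polynomial. -/
noncomputable def std {n : ℕ} {R : Type*} [Ring R] (f : Fin n → R) : R :=
  ∑ σ : Equiv.Perm (Fin n), (Equiv.Perm.sign σ : ℤ) • (List.ofFn fun i => f (σ i)).prod

theorem std_swap {n : ℕ} {R : Type*} [Ring R] (f : Fin n → R) {i j : Fin n} (hij : i ≠ j)
    (h : ∀ c, f i * c * f j = f j * c * f i) : std f = 0 := by
  classical
  unfold std
  refine Finset.sum_involution (fun σ _ => Equiv.swap i j * σ) ?_ ?_ (fun _ _ => Finset.mem_univ _)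
    ?_
  · intro σ _
    have e1 : (List.ofFn fun k => f ((Equiv.swap i j * σ) k)).prod =
        (List.ofFn fun k => f (σ k)).prod := by
      have := prod_swap f hij h (List.ofFn σ) (List.nodup_ofFn.2 σ.injective)
        (List.mem_ofFn.2 ⟨σ.symm i, by simp⟩) (List.mem_ofFn.2 ⟨σ.symm j, by simp⟩)
      rw [List.map_ofFn, List.map_ofFn] at this
      exact this
    rw [e1, Equiv.Perm.sign_mul, Equiv.Perm.sign_swap hij]
    simp
  · intro σ _ _ he
    have := congrArg (fun τ : Equiv.Perm (Fin n) => τ (σ.symm i)) he
    simp at this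
    exact hij this.symm
  · intro σ _
    rw [← mul_assoc, Equiv.swap_mul_self, one_mul]

theorem map_std {n : ℕ} {R R' : Type*} [Ring R] [Ring R'] (φ : R →+* R') (f : Fin n → R) :
    φ (std f) = std fun i => φ (f i) := by
  unfold std
  rw [map_sum]
  apply Finset.sum_congr rfl
  intro σ _
  rw [map_zsmul, map_list_prod, List.map_ofFn]
  rfl

/-- The standard polynomial as a multilinear map. -/
noncomputable def stdM (F : Type*) [Field F] (n : ℕ) (R : Type*) [Ring R] [Algebra F R] :
    MultilinearMap F (fun _ : Fin n => R) R :=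
  ∑ σ : Equiv.Perm (Fin n), (Equiv.Perm.sign σ : ℤ) •
    ((MultilinearMap.mkPiAlgebraFin F n R).domDomCongr σ)

theorem stdM_apply (F : Type*) [Field F] {n : ℕ} {R : Type*} [Ring R] [Algebra F R]
    (f : Fin n → R) : stdM F n R f = std f := by
  unfold stdM std
  rw [sum_apply]
  rfl

theorem multilinear_span {F : Type*} [Field F] {n : ℕ} {R R' : Type*} [AddCommGroup R]
    [Module F R] [AddCommGroup R'] [Module F R'] (f : MultilinearMap F (fun _ : Fin n => R) R')
    (S : Set R) (h : ∀ x : Fin n → R, (∀ i, x i ∈ S) → f x = 0) (x : Fin n → R)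
    (hx : ∀ i, x i ∈ Submodule.span F S) : f x = 0 := by
  classical
  have key : ∀ (t : Finset (Fin n)) (x : Fin n → R), (∀ i ∈ t, x i ∈ Submodule.span F S) →
      (∀ i ∉ t, x i ∈ S) → f x = 0 := by
    intro t
    induction t using Finset.induction_on with
    | empty => intro x _ h2; exact h x fun i => h2 i (by simp)
    | insert a t ha ih =>
      intro x h1 h2
      have h3 : ∀ y ∈ Submodule.span F S, f (Function.update x a y) = 0 := by
        intro y hy
        induction hy using Submodule.span_induction with
        | mem y hy =>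
          apply ih
          · intro i hi
            have hia : i ≠ a := by rintro rfl; exact ha hi
            rw [Function.update_of_ne hia]
            exact h1 i (by simp [hi])
          · intro i hi
            by_cases hia : i = a
            · subst hia; simpa using hy
            · rw [Function.update_of_ne hia]
              exact h2 i (by simp [hi, hia])
        | zero => exact f.map_update_zero x a
        | add y z _ _ h3 h4 => rw [f.map_update_add, h3, h4, add_zero]
        | smul c y _ h3 => rw [f.map_update_smul, h3, smul_zero]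
      have := h3 (x a) (h1 a (by simp))
      rwa [Function.update_eq_self] at this
  exact key Finset.univ x (fun i _ => hx i) (fun i hi => absurd (Finset.mem_univ i) hi)

/-! ### The number of arrows -/

section Arrows

variable {Q : Type} [Fintype Q] {M : Sys Q Bool} {F : Type u} [Field F]

/-- The number of arrow letters in the monomial. -/
def ad (m : ML M →₀ ℕ) : ℕ := m .L + m .R + ∑ a : St Q M.B, m (.t a)

theorem ad_add (m m' : ML M →₀ ℕ) : ad (m + m') = ad m + ad m' := by
  simp only [ad, Finsupp.add_apply, Finset.sum_add_distrib]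
  omega

/-- All monomials have at least `k` arrow letters. -/
def AD (k : ℕ) (N : Mx M F) : Prop := ∀ i j, ∀ m ∈ (N i j).support, k ≤ ad m

theorem AD.mul {k k' : ℕ} {N N' : Mx M F} (h : AD k N) (h' : AD k' N') :
    AD (k + k') (N * N') := by
  classical
  intro i j m hm
  rw [Matrix.mul_apply] at hm
  have := MvPolynomial.support_sum hm
  simp only [Finset.mem_biUnion] at this
  obtain ⟨l, _, hl⟩ := this
  obtain ⟨m₁, h₁, m₂, h₂, rfl⟩ := mem_support_mul hl
  rw [ad_add]
  exact add_le_add (h i l m₁ h₁) (h' l j m₂ h₂)

theorem AD.zero (N : Mx M F) : AD 0 N := fun _ _ _ _ => Nat.zero_le _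

theorem AD_of_eq_zero (k : ℕ) : AD k (0 : Mx M F) := by
  intro i j m hm
  simp at hm

theorem AD.mono {k k' : ℕ} {N : Mx M F} (h : AD k N) (hk : k' ≤ k) : AD k' N :=
  fun i j m hm => hk.trans (h i j m hm)

theorem AD.prod : ∀ (l : List (Mx M F × ℕ)), (∀ p ∈ l, AD p.2 p.1) →
    AD (l.map Prod.snd).sum (l.map Prod.fst).prod := by
  intro l
  induction l with
  | nil => intro _; exact AD.zero _
  | cons p l ih =>
    intro h
    simp only [List.map_cons, List.sum_cons, List.prod_cons]
    exact (h p (by simp)).mul (ih fun q hq => h q (by simp [hq]))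

/-- The three types of words. -/
theorem word_type (l : List (ML M)) (hl : l ≠ []) :
    (∃ a, (l.map (G M F)).prod = Matrix.single 1 1 a) ∨
    (∃ a, (l.map (G M F)).prod = Matrix.single 2 2 a) ∨ AD 1 (l.map (G M F)).prod := by
  classical
  have hone : ∀ c : ML M, (∃ a, G M F c = Matrix.single 1 1 a) ∨
      (∃ a, G M F c = Matrix.single 2 2 a) ∨ AD 1 (G M F c) := by
    intro c
    cases c with
    | L =>
      right; right
      intro i j m hm
      obtain ⟨rfl, _, _⟩ := mem_support_single hm
      simp [ad]
    | R =>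
      right; right
      intro i j m hm
      obtain ⟨rfl, _, _⟩ := mem_support_single hm
      simp [ad]
    | x b => left; exact ⟨_, rfl⟩
    | y b => right; left; exact ⟨_, rfl⟩
    | t b =>
      right; right
      intro i j m hm
      obtain ⟨rfl, _, _⟩ := mem_support_single hm
      have : (1 : ℕ) ≤ ∑ a : St Q M.B, (Finsupp.single (Lt.t b : ML M) 1) (Lt.t a) := by
        have := Finset.single_le_sum (f := fun a : St Q M.B =>
          (Finsupp.single (Lt.t b : ML M) 1) (Lt.t a)) (fun _ _ => Nat.zero_le _)
          (Finset.mem_univ b)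
        simpa using this
      unfold ad
      omega
  induction l with
  | nil => exact absurd rfl hl
  | cons c l ih =>
    by_cases h0 : l = []
    · subst h0
      simpa using hone c
    · have h1 := ih h0
      have h2 := hone c
      simp only [List.map_cons, List.prod_cons]
      rcases h2 with ⟨a, ha⟩ | ⟨a, ha⟩ | ha
      · rcases h1 with ⟨b, hb⟩ | ⟨b, hb⟩ | hb
        · left; exact ⟨a * b, by rw [ha, hb, Matrix.single_mul_single_same]⟩
        · right; right
          rw [ha, hb, Matrix.single_mul_single_of_ne _ _ _ _ (by decide)]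
          exact AD_of_eq_zero 1
        · right; right
          have := (AD.zero (G M F c)).mul hb
          simpa using this
      · rcases h1 with ⟨b, hb⟩ | ⟨b, hb⟩ | hb
        · right; right
          rw [ha, hb, Matrix.single_mul_single_of_ne _ _ _ _ (by decide)]
          exact AD_of_eq_zero 1
        · right; left; exact ⟨a * b, by rw [ha, hb, Matrix.single_mul_single_same]⟩
        · right; right
          have := (AD.zero (G M F c)).mul hb
          simpa using this
      · right; right
        have := ha.mul (AD.zero (l.map (G M F)).prod)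
        simpa using this

theorem T_zero_of_ad {f : MvPolynomial (ML M) F} (h : ∀ m ∈ f.support, 4 ≤ ad m) :
    T M F f = 0 := by
  classical
  have : f = f * monomial 0 1 := by simp
  rw [this]
  apply T_mul_zero
  intro m hm
  rw [add_zero]
  unfold tval
  rw [if_neg]
  rintro ⟨h1, h2, h3⟩
  have := h m hm
  unfold ad at this
  omega

end Arrows

/-! ### The standard identity holds on words -/

section Words

variable {Q : Type} [Fintype Q] {M : Sys Q Bool} {F : Type u} [Field F]

omit [Fintype Q] in
theorem std_single {n : ℕ} (f : Fin n → Mx M F) {i j : Fin n} (hij : i ≠ j) (k : Fin 3)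
    (a b : MvPolynomial (ML M) F) (hi : f i = Matrix.single k k a)
    (hj : f j = Matrix.single k k b) : std f = 0 := by
  apply std_swap f hij
  intro c
  rw [hi, hj, Matrix.single_mul_mul_single, Matrix.single_mul_mul_single]
  congr 1
  ring

theorem std_words {n : ℕ} (hn : 6 ≤ n) (l : Fin n → List (ML M)) (hl : ∀ i, l i ≠ []) :
    std (fun i => pr M F ((l i).map (FreeAlgebra.ι F)).prod) = 0 := by
  classical
  have e := map_std (pr M F) (fun i => ((l i).map (FreeAlgebra.ι F)).prod)
  rw [← e, ← map_zero (pr M F), pr_eq]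
  intro u v
  have h0 : V M F (u * 0 * v) = 0 := by simp [V]
  rw [h0]
  set f : Fin n → Mx M F := fun i => ((l i).map (G M F)).prod with hf
  have e2 : ev M F (std fun i => ((l i).map (FreeAlgebra.ι F)).prod) = std f := by
    have := map_std (ev M F).toRingHom (fun i => ((l i).map (FreeAlgebra.ι F)).prod)
    simp only [AlgHom.toRingHom_eq_coe, RingHom.coe_coe, ev_word] at this
    exact this
  unfold V
  rw [map_mul, map_mul, e2]
  -- the types
  by_cases h1 : ∃ i j, i ≠ j ∧ (∃ a, f i = Matrix.single 1 1 a) ∧ ∃ b, f j = Matrix.single 1 1 b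
  · obtain ⟨i, j, hij, ⟨a, ha⟩, b, hb⟩ := h1
    rw [std_single f hij 1 a b ha hb]
    simp
  by_cases h2 : ∃ i j, i ≠ j ∧ (∃ a, f i = Matrix.single 2 2 a) ∧ ∃ b, f j = Matrix.single 2 2 b
  · obtain ⟨i, j, hij, ⟨a, ha⟩, b, hb⟩ := h2
    rw [std_single f hij 2 a b ha hb]
    simp
  push Not at h1 h2
  -- the degrees
  let d : Fin n → ℕ := fun i => if AD 1 (f i) then 1 else 0
  have hd : ∀ i, AD (d i) (f i) := by
    intro i
    simp only [d]
    split_ifs with h
    · exact h
    · exact AD.zero _
  have hsum : 4 ≤ ∑ i, d i := by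
    have hA : (Finset.univ.filter fun i => ∃ a, f i = Matrix.single 1 1 a).card ≤ 1 := by
      rw [Finset.card_le_one]
      intro i hi j hj
      by_contra hij
      obtain ⟨a, ha⟩ := (Finset.mem_filter.1 hi).2
      obtain ⟨b, hb⟩ := (Finset.mem_filter.1 hj).2
      exact h1 i j hij ⟨a, ha⟩ b hb
    have hB : (Finset.univ.filter fun i => ∃ a, f i = Matrix.single 2 2 a).card ≤ 1 := by
      rw [Finset.card_le_one]
      intro i hi j hj
      by_contra hij
      obtain ⟨a, ha⟩ := (Finset.mem_filter.1 hi).2
      obtain ⟨b, hb⟩ := (Finset.mem_filter.1 hj).2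
      exact h2 i j hij ⟨a, ha⟩ b hb
    have hC : ∑ i, d i = (Finset.univ.filter fun i => AD 1 (f i)).card := by
      simp only [d]
      rw [Finset.card_filter]
    have hU : (Finset.univ : Finset (Fin n)) ⊆
        (Finset.univ.filter fun i => ∃ a, f i = Matrix.single 1 1 a) ∪
        ((Finset.univ.filter fun i => ∃ a, f i = Matrix.single 2 2 a) ∪
        (Finset.univ.filter fun i => AD 1 (f i))) := by
      intro i _
      simp only [Finset.mem_union, Finset.mem_filter, Finset.mem_univ, true_and]
      exact word_type (l i) (hl i)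
    have h3 := Finset.card_le_card hU
    have h4 := Finset.card_union_le (Finset.univ.filter fun i => ∃ a, f i = Matrix.single 1 1 a)
      ((Finset.univ.filter fun i => ∃ a, f i = Matrix.single 2 2 a) ∪
        (Finset.univ.filter fun i => AD 1 (f i)))
    have h5 := Finset.card_union_le (Finset.univ.filter fun i => ∃ a, f i = Matrix.single 2 2 a)
        (Finset.univ.filter fun i => AD 1 (f i))
    rw [Finset.card_univ, Fintype.card_fin] at h3
    omega
  have hterm : ∀ σ : Equiv.Perm (Fin n), AD 4 (List.ofFn fun i => f (σ i)).prod := by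
    intro σ
    have := AD.prod (List.ofFn fun i => (f (σ i), d (σ i))) (by
      intro p hp
      rw [List.mem_ofFn] at hp
      obtain ⟨i, rfl⟩ := hp
      exact hd (σ i))
    rw [List.map_ofFn, List.map_ofFn] at this
    refine this.mono ?_
    have e3 : (Prod.snd ∘ fun i => (f (σ i), d (σ i))) = fun i => d (σ i) := rfl
    rw [e3, List.sum_ofFn, Equiv.sum_comp σ d]
    exact hsum
  apply T_zero_of_ad
  have hAD : AD 4 (ev M F u * std f * ev M F v) := by
    have h4 : ∀ σ : Equiv.Perm (Fin n),
        AD 4 (ev M F u * ((Equiv.Perm.sign σ : ℤ) • (List.ofFn fun i => f (σ i)).prod) *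
          ev M F v) := by
      intro σ
      have h5 : AD 4 (ev M F u * (List.ofFn fun i => f (σ i)).prod * ev M F v) := by
        have := ((AD.zero (ev M F u)).mul (hterm σ)).mul (AD.zero (ev M F v))
        simpa using this
      intro i j m hm
      rw [mul_smul_comm, smul_mul_assoc] at hm
      rcases Int.units_eq_one_or (Equiv.Perm.sign σ) with hs | hs
      · rw [hs] at hm
        simp only [Units.val_one, one_smul] at hm
        exact h5 i j m hm
      · rw [hs] at hm
        simp only [Units.val_neg, Units.val_one, neg_smul, one_smul, Matrix.neg_apply,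
          MvPolynomial.support_neg] at hm
        exact h5 i j m hm
    intro i j m hm
    unfold std at hm
    rw [Finset.mul_sum, Finset.sum_mul, Matrix.sum_apply] at hm
    have := MvPolynomial.support_sum hm
    simp only [Finset.mem_biUnion] at this
    obtain ⟨σ, _, hσ⟩ := this
    exact h4 σ i j m hσ
  exact fun m hm => hAD 0 0 m hm

end Words

end Pool.Agent.H261EQ
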